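import Mathlib

set_option autoImplicit false

namespace Pool.Agent.Lib.MP_5f5f24_nt

open Polynomial

/-- The polynomial `f_n = u_n X^n + ... + u_1 X + u_0` attached to a sequence `u`. -/
noncomputable def trunc {F : Type*} [Field F] (u : ℕ → F) (n : ℕ) : F[X] :=
  ∑ i ∈ Finset.range (n + 1), C (u i) * X ^ i

lemma aeval_trunc {F : Type*} [Field F] {R : Type*} [CommRing R] [Algebra F R] (u : ℕ → F)
    (n : ℕ) (x : R) :
    aeval x (trunc u n) = ∑ i ∈ Finset.range (n + 1), algebraMap F R (u i) * x ^ i := by
  simp [trunc, map_sum]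

lemma coeff_trunc {F : Type*} [Field F] (u : ℕ → F) (n k : ℕ) :
    (trunc u n).coeff k = if k ≤ n then u k else 0 := by
  simp only [trunc, finsetSum_coeff, coeff_C_mul, coeff_X_pow]
  by_cases hk : k ≤ n
  · rw [if_pos hk, Finset.sum_eq_single k]
    · simp
    · intro b _ hb; simp [Ne.symm hb]
    · intro h; exact absurd (Finset.mem_range.mpr (by omega)) h
  · rw [if_neg hk]
    apply Finset.sum_eq_zero
    intro b hb
    have : b ≤ n := by have := Finset.mem_range.mp hb; omega
    have : k ≠ b := by omega
    simp [this]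

lemma natDegree_trunc {F : Type*} [Field F] (u : ℕ → F) (hu : ∀ n, u n ≠ 0) (n : ℕ) :
    (trunc u n).natDegree = n := by
  apply le_antisymm
  · rw [natDegree_le_iff_coeff_eq_zero]
    intro k hk
    rw [coeff_trunc, if_neg (by omega)]
  · apply le_natDegree_of_ne_zero
    rw [coeff_trunc, if_pos le_rfl]
    exact hu n

lemma end_mul_apply {M : Type*} [AddCommGroup M] (f g : AddMonoid.End M) (x : M) :
    (f * g) x = f (g x) := rfl

/-- A semilinear-nilpotency bound: if `B` is additive and `ψ`-semilinear and `B^j v = 0` then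
`B^D v = 0` as soon as `D` is at least the dimension of a finite-dimensional `B`-stable space
containing `v`. -/
lemma pow_finrank_eq_zero {E M : Type*} [Field E] [AddCommGroup M] [Module E M]
    (ψ : E →+* E) (B : AddMonoid.End M) (hB : ∀ (e : E) (x : M), B (e • x) = ψ e • B x)
    (V : Submodule E M) [FiniteDimensional E V] (hV : ∀ x ∈ V, B x ∈ V)
    (v : M) (hv : v ∈ V) (D : ℕ) (hD : Module.finrank E V ≤ D) (j : ℕ) (hj : (B ^ j) v = 0) :
    (B ^ D) v = 0 := by
  classical
  by_contra hne
  have hBpow : ∀ (m : ℕ) (e : E) (x : M), (B ^ m) (e • x) = (ψ^[m] e) • (B ^ m) x := by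
    intro m
    induction m with
    | zero => intro e x; simp
    | succ m ih =>
      intro e x
      rw [pow_succ, end_mul_apply, hB, ih, end_mul_apply,
        Function.iterate_succ_apply]
  have hVpow : ∀ (m : ℕ) (x : M), x ∈ V → (B ^ m) x ∈ V := by
    intro m
    induction m with
    | zero => intro x hx; simpa using hx
    | succ m ih =>
      intro x hx
      rw [pow_succ, end_mul_apply]
      exact ih _ (hV x hx)
  -- minimal j with B^j v = 0
  have hex : ∃ j, (B ^ j) v = 0 := ⟨j, hj⟩
  set k := Nat.find hex with hk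
  have hk0 : (B ^ k) v = 0 := Nat.find_spec hex
  have hkmin : ∀ m < k, (B ^ m) v ≠ 0 := fun m hm => Nat.find_min hex hm
  have hkD : D < k := by
    by_contra h
    push Not at h
    apply hne
    have : D = (D - k) + k := by omega
    rw [this, pow_add, end_mul_apply, hk0, map_zero]
  have hge : ∀ m, k ≤ m → (B ^ m) v = 0 := by
    intro m hm
    have : m = (m - k) + k := by omega
    rw [this, pow_add, end_mul_apply, hk0, map_zero]
  -- linear independence of v, Bv, ..., B^{k-1} v
  have hli : LinearIndependent E (fun i : Fin k => (⟨(B ^ (i : ℕ)) v, hVpow _ _ hv⟩ : V)) := by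
    rw [Fintype.linearIndependent_iff]
    intro g hg
    have hg' : ∑ i : Fin k, g i • (B ^ (i : ℕ)) v = 0 := by
      have := congrArg (Submodule.subtype V) hg
      simpa using this
    have main : ∀ a : ℕ, ∀ i : Fin k, (i : ℕ) = a → g i = 0 := by
      intro a
      induction a using Nat.strong_induction_on with
      | _ a ih =>
        intro i hi
        have h1 := congrArg (B ^ (k - 1 - a)) hg'
        rw [map_sum, map_zero, Finset.sum_eq_single i] at h1
        · rw [hBpow, ← end_mul_apply, ← pow_add] at h1
          have hia : k - 1 - a + (i : ℕ) = k - 1 := by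
            have := i.isLt
            omega
          rw [hia] at h1
          rcases smul_eq_zero.mp h1 with h | h
          · have hinj : Function.Injective (ψ^[k - 1 - a]) := ψ.injective.iterate _
            have h0 : (ψ^[k - 1 - a]) 0 = 0 := by
              clear h h1
              induction (k - 1 - a) with
              | zero => rfl
              | succ m ihm => rw [Function.iterate_succ_apply, map_zero, ihm]
            exact hinj (by rw [h, h0])
          · exact absurd h (hkmin _ (by have := i.isLt; omega))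
        · intro b _ hb
          rcases lt_or_gt_of_ne (fun h => hb (Fin.ext h) : (b : ℕ) ≠ (i : ℕ)) with h | h
          · rw [ih b (by omega) b rfl, zero_smul, map_zero]
          · rw [hBpow, ← end_mul_apply, ← pow_add, hge _ (by have := b.isLt; omega),
              smul_zero]
        · intro h; exact absurd (Finset.mem_univ _) h
    intro i
    exact main i i rfl
  have hcard := hli.fintype_card_le_finrank
  rw [Fintype.card_fin] at hcard
  omega

section Frob

variable {F E : Type*} [Field F] [Fintype F] [Field E] [Algebra F E] [Algebra.IsAlgebraic F E]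

/-- The partial sums `T c l g = ∑_{i<l} g_i c^i`. -/
noncomputable def T (c : E) (l : ℕ) (g : ℕ → E) : E := ∑ i ∈ Finset.range l, g i * c ^ i

/-- The Cartier-type operator. -/
noncomputable def Bop (F : Type*) {E : Type*} [Field F] [Fintype F] [Field E] [Algebra F E]
    [Algebra.IsAlgebraic F E] (c : E) : AddMonoid.End (ℕ → E) where
  toFun g n := (FiniteField.frobeniusAlgEquivOfAlgebraic F E).symm
    (∑ r ∈ Finset.range (Fintype.card F), c ^ r * g (Fintype.card F * n + r))
  map_zero' := by
    funext n
    simp only [Pi.zero_apply, mul_zero, Finset.sum_const_zero]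
    exact map_zero _
  map_add' g h := by
    funext n
    simp only [Pi.add_apply, mul_add, Finset.sum_add_distrib, map_add]

lemma Bop_apply (c : E) (g : ℕ → E) (n : ℕ) : Bop F c g n =
    (FiniteField.frobeniusAlgEquivOfAlgebraic F E).symm
    (∑ r ∈ Finset.range (Fintype.card F), c ^ r * g (Fintype.card F * n + r)) := rfl

lemma Bop_smul (c : E) (e : E) (g : ℕ → E) : Bop F c (e • g) =
    ((FiniteField.frobeniusAlgEquivOfAlgebraic F E).symm e) • Bop F c g := by
  funext n
  rw [Bop_apply, Pi.smul_apply, Bop_apply, smul_eq_mul, ← map_mul, Finset.mul_sum]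
  congr 1
  apply Finset.sum_congr rfl
  intro r _
  simp only [Pi.smul_apply, smul_eq_mul]
  ring

lemma T_mul (c : E) (l : ℕ) (g : ℕ → E) :
    T c (Fintype.card F * l) g = (T c l (Bop F c g)) ^ (Fintype.card F) := by
  have hφ : ∀ x : E, x ^ (Fintype.card F) = FiniteField.frobeniusAlgEquivOfAlgebraic F E x := by
    intro x; simp
  rw [hφ]
  unfold T
  rw [map_sum]
  induction l with
  | zero => simp
  | succ l ih =>
    rw [Finset.sum_range_succ, ← ih, Nat.mul_succ, Finset.sum_range_add]
    congr 1
    rw [map_mul, Bop_apply, AlgEquiv.apply_symm_apply, Finset.sum_mul, ← hφ]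
    apply Finset.sum_congr rfl
    intro r _
    rw [← pow_mul, pow_add]
    ring

lemma T_pow_mul (c : E) (l : ℕ) (J : ℕ) (g : ℕ → E) :
    T c (Fintype.card F ^ J * l) g = (T c l ((Bop F c ^ J) g)) ^ (Fintype.card F ^ J) := by
  induction J generalizing g with
  | zero => simp
  | succ J ih =>
    have : Fintype.card F ^ (J + 1) * l = Fintype.card F * (Fintype.card F ^ J * l) := by ring
    rw [this, T_mul, ih, ← pow_mul, pow_succ (Bop F c), end_mul_apply, pow_succ]

end Frob

/-- Main automatic statement: if `u` belongs to a finite set `S` of sequences, stable under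
`w ↦ (n ↦ w (q n + r))`, `r < q = |F|`, then infinitely many truncations are reducible. -/
theorem infinite_reducible_of_finite_kernel {F : Type*} [Field F] [Fintype F] (u : ℕ → F)
    (hu : ∀ n, u n ≠ 0) (S : Set (ℕ → F)) (hS : S.Finite) (huS : u ∈ S)
    (hstab : ∀ w ∈ S, ∀ r < Fintype.card F, (fun n => w (Fintype.card F * n + r)) ∈ S) :
    {m : ℕ | ¬ Irreducible (trunc u m)}.Infinite := by
  classical
  set q := Fintype.card F with hq
  have hq2 : 2 ≤ q := Fintype.one_lt_card
  set D := hS.toFinset.card with hD
  have hqD : 1 ≤ q ^ D := Nat.one_le_pow _ _ (by omega)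
  -- n = q^D * 2 - 1
  set n := q ^ D * 2 - 1 with hn
  have hn1 : 1 ≤ n := by omega
  have hndeg : (trunc u n).natDegree = n := natDegree_trunc u hu n
  have hnu : ¬ IsUnit (trunc u n) := by
    intro h
    have := natDegree_eq_zero_of_isUnit h
    omega
  obtain ⟨g, hgirr, hgdvd⟩ := WfDvdMonoid.exists_irreducible_factor hnu (by
    intro h; rw [h] at hndeg; simp at hndeg; omega)
  have : Fact (Irreducible g) := ⟨hgirr⟩
  have hg0 : g ≠ 0 := hgirr.ne_zero
  have hfin : Module.Finite F (AdjoinRoot g) := (AdjoinRoot.powerBasis hg0).finite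
  have hfinite : Finite (AdjoinRoot g) := Module.finite_of_finite F
  have halg : Algebra.IsAlgebraic F (AdjoinRoot g) := Algebra.IsAlgebraic.of_finite F _
  set c : AdjoinRoot g := AdjoinRoot.root g with hc
  set B := Bop F c with hBdef
  -- the space V
  let ι : (ℕ → F) → (ℕ → AdjoinRoot g) := fun w n => algebraMap F (AdjoinRoot g) (w n)
  set V : Submodule (AdjoinRoot g) (ℕ → AdjoinRoot g) :=
    Submodule.span (AdjoinRoot g) ((hS.toFinset.image ι : Finset _) : Set (ℕ → AdjoinRoot g)) with hVdef
  have hVfin : FiniteDimensional (AdjoinRoot g) V := FiniteDimensional.span_finset _ _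
  have hVrank : Module.finrank (AdjoinRoot g) V ≤ D := by
    refine le_trans (finrank_span_finset_le_card _) ?_
    exact Finset.card_image_le
  have hmemV : ∀ w ∈ S, ι w ∈ V := by
    intro w hw
    apply Submodule.subset_span
    simp only [Finset.coe_image, Set.Finite.coe_toFinset]
    exact ⟨w, hw, rfl⟩
  have hVB : ∀ x ∈ V, B x ∈ V := by
    intro x hx
    induction hx using Submodule.span_induction with
    | mem x hx =>
      simp only [Finset.coe_image, Set.Finite.coe_toFinset] at hx
      obtain ⟨w, hw, rfl⟩ := hx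
      have : B (ι w) = ∑ r ∈ Finset.range q,
          ((FiniteField.frobeniusAlgEquivOfAlgebraic F (AdjoinRoot g)).symm (c ^ r)) •
            ι (fun n => w (q * n + r)) := by
        funext n
        rw [hBdef, Bop_apply, map_sum, Finset.sum_apply]
        apply Finset.sum_congr rfl
        intro r _
        simp only [ι, Pi.smul_apply, smul_eq_mul]
        rw [map_mul, AlgEquiv.commutes]
      rw [this]
      apply Submodule.sum_mem
      intro r hr
      exact Submodule.smul_mem _ _ (hmemV _ (hstab w hw r (Finset.mem_range.mp hr)))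
    | zero => rw [map_zero]; exact V.zero_mem
    | add x y _ _ hx hy => rw [map_add]; exact V.add_mem hx hy
    | smul e x _ hx =>
      rw [hBdef, Bop_smul]
      exact V.smul_mem _ hx
  have hVBpow : ∀ (m : ℕ) (x : ℕ → AdjoinRoot g), x ∈ V → (B ^ m) x ∈ V := by
    intro m
    induction m with
    | zero => intro x hx; simpa using hx
    | succ m ih =>
      intro x hx
      rw [pow_succ, end_mul_apply]
      exact ih _ (hVB x hx)
  have hVfinite : Finite V := Module.finite_of_finite (AdjoinRoot g)
  -- eventual periodicity with uniform preperiod D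
  have huV : ι u ∈ V := hmemV u huS
  obtain ⟨a, b, hab, hEq⟩ : ∃ a b : ℕ, a ≠ b ∧ (B ^ a) (ι u) = (B ^ b) (ι u) := by
    obtain ⟨a, b, hab, h⟩ := Finite.exists_ne_map_eq_of_infinite
      (fun j : ℕ => (⟨(B ^ j) (ι u), hVBpow j _ huV⟩ : V))
    exact ⟨a, b, hab, congrArg Subtype.val h⟩
  obtain ⟨π, hπ, hper⟩ : ∃ π : ℕ, 1 ≤ π ∧ (B ^ (D + π)) (ι u) = (B ^ D) (ι u) := by
    wlog hlt : a < b generalizing a b
    · exact this b a hab.symm hEq.symm (by omega)
    refine ⟨b - a, by omega, ?_⟩
    have h1 : (B ^ a) ((B ^ (b - a)) (ι u) - ι u) = 0 := by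
      rw [map_sub, ← end_mul_apply, ← pow_add]
      have : a + (b - a) = b := by omega
      rw [this, ← hEq, sub_self]
    have h2 := pow_finrank_eq_zero
      ((FiniteField.frobeniusAlgEquivOfAlgebraic F (AdjoinRoot g)).symm : AdjoinRoot g →+* AdjoinRoot g)
      B (fun e x => by rw [hBdef]; exact Bop_smul c e x) V hVB _
      (V.sub_mem (hVBpow (b - a) _ huV) huV) D hVrank a h1
    rw [map_sub, ← end_mul_apply, ← pow_add, sub_eq_zero] at h2
    exact h2
  have hper' : ∀ t : ℕ, (B ^ (D + π * t)) (ι u) = (B ^ D) (ι u) := by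
    intro t
    induction t with
    | zero => simp
    | succ t ih =>
      have e : D + π * (t + 1) = π * t + (D + π) := by ring
      rw [e, pow_add, end_mul_apply, hper, ← end_mul_apply, ← pow_add]
      rw [show π * t + D = D + π * t by ring]
      exact ih
  -- c is a root of trunc u n
  have haev : ∀ m, aeval c (trunc u m) = T c (m + 1) (ι u) := by
    intro m
    rw [aeval_trunc]
    rfl
  have hroot : aeval c (trunc u n) = 0 := by
    obtain ⟨h, hh⟩ := hgdvd
    rw [hh, map_mul, hc, AdjoinRoot.aeval_eq, AdjoinRoot.mk_self, zero_mul]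
  have hT : T c (q ^ D * 2) (ι u) = 0 := by
    rw [haev] at hroot
    have : n + 1 = q ^ D * 2 := by omega
    rw [this] at hroot
    exact hroot
  rw [T_pow_mul] at hT
  have hT0 : T c 2 ((B ^ D) (ι u)) = 0 := by
    exact eq_zero_of_pow_eq_zero hT
  have hTt : ∀ t : ℕ, T c (q ^ (D + π * t) * 2) (ι u) = 0 := by
    intro t
    rw [T_pow_mul]
    have h1 : (Bop F c ^ (D + π * t)) (ι u) = (B ^ D) (ι u) := hper' t
    rw [h1, hT0]
    exact zero_pow (pow_ne_zero _ (by omega))
  rw [Set.infinite_iff_exists_gt]
  intro A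
  have hbig : ∀ k : ℕ, k < q ^ k := fun k => Nat.lt_pow_self (by omega)
  set t := A + 1 with ht
  have hlt : n < q ^ (D + π * t) * 2 - 1 := by
    have h1 : q ^ D < q ^ (D + π * t) := by
      apply Nat.pow_lt_pow_right (by omega)
      have : 1 ≤ π * t := Nat.one_le_iff_ne_zero.mpr (Nat.mul_ne_zero (by omega) (by omega))
      omega
    omega
  have hA : A < q ^ (D + π * t) * 2 - 1 := by
    have h1 := hbig (D + π * t)
    have h2 : t ≤ π * t := Nat.le_mul_of_pos_left t hπ
    omega
  refine ⟨q ^ (D + π * t) * 2 - 1, ?_, hA⟩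
  intro hirr
  set m := q ^ (D + π * t) * 2 - 1 with hm
  have hm1 : m + 1 = q ^ (D + π * t) * 2 := by omega
  have hmroot : aeval c (trunc u m) = 0 := by rw [haev, hm1]; exact hTt t
  have hdvd : g ∣ trunc u m := by
    rw [hc, AdjoinRoot.aeval_eq, AdjoinRoot.mk_eq_zero] at hmroot
    exact hmroot
  have hgn : g.natDegree ≤ n := by
    have := natDegree_le_of_dvd hgdvd (by intro h; rw [h] at hndeg; simp at hndeg; omega)
    omega
  have hmdeg : (trunc u m).natDegree = m := natDegree_trunc u hu m
  obtain ⟨h, hh⟩ := hdvd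
  rcases hirr.isUnit_or_isUnit hh with h' | h'
  · exact hgirr.not_isUnit h'
  · have h0 : h.natDegree = 0 := natDegree_eq_zero_of_isUnit h'
    have := congrArg natDegree hh
    rw [natDegree_mul hg0 h'.ne_zero, h0, hmdeg] at this
    omega

end Pool.Agent.Lib.MP_5f5f24_nt
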