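import Mathlib

set_option autoImplicit false

namespace Pool.Agent.Lib.MP_5f5f24_nt

open Polynomial

section

variable {F : Type*} [Field F] [Fintype F]

/-- Cartier operator on power series. -/
noncomputable def lam (i : ℕ) (G : PowerSeries F) : PowerSeries F :=
  PowerSeries.mk fun n => PowerSeries.coeff (Fintype.card F * n + i) G

lemma coeff_lam (i n : ℕ) (G : PowerSeries F) :
    PowerSeries.coeff n (lam i G) = PowerSeries.coeff (Fintype.card F * n + i) G := by
  simp [lam]

/-- Degree bound predicate. -/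
def polyLe (N : ℕ) (G : PowerSeries F) : Prop := ∀ n, N < n → PowerSeries.coeff n G = 0

lemma coeff_pow_card (H : PowerSeries F) (m : ℕ) :
    PowerSeries.coeff m (H ^ (Fintype.card F)) =
      if Fintype.card F ∣ m then PowerSeries.coeff (m / Fintype.card F) H else 0 := by
  obtain ⟨p, hp⟩ := CharP.exists F
  obtain ⟨n, hpp, hn⟩ := FiniteField.card F p
  have : Fact p.Prime := ⟨hpp⟩
  have hq0 : Fintype.card F ≠ 0 := Fintype.card_ne_zero
  have h1 := MvPowerSeries.map_iterateFrobenius_expand p hpp.ne_zero (R := F) (σ := Unit) H n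
  have hid : (iterateFrobenius F p (n : ℕ)) = RingHom.id F := by
    ext x
    rw [iterateFrobenius_def, ← hn, FiniteField.pow_card, RingHom.id_apply]
  rw [hid, MvPowerSeries.map_id, RingHom.id_apply] at h1
  have h2 : PowerSeries.expand (Fintype.card F) hq0 H = H ^ (Fintype.card F) := by
    rw [PowerSeries.expand]
    have gen : ∀ (m : ℕ) (hm : m ≠ 0), m = p ^ (n : ℕ) →
        (MvPowerSeries.expand m hm) H = H ^ m := by
      intro m hm hme
      subst hme
      exact h1
    exact gen _ hq0 hn
  rw [← h2, PowerSeries.coeff_expand]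

lemma lam_mul_pow (i : ℕ) (hi : i < Fintype.card F) (G H : PowerSeries F) :
    lam i (G * H ^ (Fintype.card F)) = lam i G * H := by
  set q := Fintype.card F with hq
  have hq0 : 0 < q := Fintype.card_pos
  ext n
  rw [coeff_lam, PowerSeries.coeff_mul, PowerSeries.coeff_mul, ← hq]
  have h1 : ∀ x ∈ Finset.HasAntidiagonal.antidiagonal (q * n + i),
      PowerSeries.coeff x.1 G * PowerSeries.coeff x.2 (H ^ q) =
      if q ∣ x.2 then PowerSeries.coeff x.1 G * PowerSeries.coeff (x.2 / q) H else 0 := by
    intro x _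
    rw [hq, coeff_pow_card]
    split_ifs <;> simp
  rw [Finset.sum_congr rfl h1, ← Finset.sum_filter]
  symm
  apply Finset.sum_bij' (fun (x : ℕ × ℕ) _ => ((q * x.1 + i, q * x.2) : ℕ × ℕ))
    (fun (y : ℕ × ℕ) _ => ((n - y.2 / q, y.2 / q) : ℕ × ℕ))
  · intro x hx
    rw [Finset.mem_filter, Finset.HasAntidiagonal.mem_antidiagonal]
    rw [Finset.HasAntidiagonal.mem_antidiagonal] at hx
    refine ⟨?_, Dvd.intro _ rfl⟩
    rw [← hx]; ring
  · intro y hy
    rw [Finset.mem_filter, Finset.HasAntidiagonal.mem_antidiagonal] at hy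
    obtain ⟨hy1, ⟨k, hk⟩⟩ := hy
    rw [Finset.HasAntidiagonal.mem_antidiagonal]
    simp only [hk, Nat.mul_div_cancel_left k hq0]
    have : k ≤ n := by
      by_contra h
      push Not at h
      have : q * (n + 1) ≤ q * k := Nat.mul_le_mul_left _ h
      rw [Nat.mul_succ] at this
      omega
    omega
  · intro x hx
    rw [Finset.HasAntidiagonal.mem_antidiagonal] at hx
    simp only [Nat.mul_div_cancel_left x.2 hq0]
    ext <;> simp; omega
  · intro y hy
    rw [Finset.mem_filter, Finset.HasAntidiagonal.mem_antidiagonal] at hy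
    obtain ⟨hy1, ⟨k, hk⟩⟩ := hy
    simp only [hk, Nat.mul_div_cancel_left k hq0]
    have : k ≤ n := by
      by_contra h
      push Not at h
      have : q * (n + 1) ≤ q * k := Nat.mul_le_mul_left _ h
      rw [Nat.mul_succ] at this
      omega
    ext
    · simp only
      have : q * (n - k) + q * k = q * n := by rw [← Nat.mul_add]; congr 1; omega
      omega
    · simp [hk]
  · intro x hx
    rw [Finset.HasAntidiagonal.mem_antidiagonal] at hx
    simp only [Nat.mul_div_cancel_left x.2 hq0]
    rw [coeff_lam]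

lemma lam_add (i : ℕ) (G H : PowerSeries F) : lam i (G + H) = lam i G + lam i H := by
  ext n; simp [coeff_lam]

lemma lam_zero (i : ℕ) : lam i (0 : PowerSeries F) = 0 := by
  ext n; simp [coeff_lam]

lemma lam_sum {ι : Type*} (s : Finset ι) (i : ℕ) (f : ι → PowerSeries F) :
    lam i (∑ j ∈ s, f j) = ∑ j ∈ s, lam i (f j) := by
  classical
  induction s using Finset.induction_on with
  | empty => simp [lam_zero]
  | insert a s ha ih => rw [Finset.sum_insert ha, Finset.sum_insert ha, lam_add, ih]

lemma polyLe_lam {N M : ℕ} {G : PowerSeries F} (hG : polyLe (N + M) G) (hM : M ≤ N) (i : ℕ) :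
    polyLe N (lam i G) := by
  intro n hn
  rw [coeff_lam]
  apply hG
  have h2 : 2 ≤ Fintype.card F := Fintype.one_lt_card
  have : 2 * n ≤ Fintype.card F * n := Nat.mul_le_mul_right _ h2
  omega

lemma polyLe_add {N : ℕ} {G H : PowerSeries F} (hG : polyLe N G) (hH : polyLe N H) :
    polyLe N (G + H) := by
  intro n hn; rw [map_add, hG n hn, hH n hn, add_zero]

lemma polyLe_mul {N M : ℕ} {G H : PowerSeries F} (hG : polyLe N G) (hH : polyLe M H) :
    polyLe (N + M) (G * H) := by
  intro n hn
  rw [PowerSeries.coeff_mul]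
  apply Finset.sum_eq_zero
  intro x hx
  rw [Finset.HasAntidiagonal.mem_antidiagonal] at hx
  by_cases h : N < x.1
  · rw [hG _ h, zero_mul]
  · rw [hH _ (by omega), mul_zero]

lemma polyLe_mono {N M : ℕ} {G : PowerSeries F} (h : N ≤ M) (hG : polyLe N G) : polyLe M G :=
  fun n hn => hG n (by omega)

lemma polyLe_coe (A : F[X]) : polyLe A.natDegree (A : PowerSeries F) := by
  intro n hn
  rw [Polynomial.coeff_coe]
  exact Polynomial.coeff_eq_zero_of_natDegree_lt hn

lemma polyLe_finite (N : ℕ) : {G : PowerSeries F | polyLe N G}.Finite := by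
  classical
  have : Function.Injective (fun G : {G : PowerSeries F | polyLe N G} =>
      (fun n : Fin (N + 1) => PowerSeries.coeff (n : ℕ) G.1)) := by
    intro G H h
    apply Subtype.ext
    ext n
    by_cases hn : n < N + 1
    · exact congrFun h ⟨n, hn⟩
    · rw [G.2 n (by omega), H.2 n (by omega)]
  exact Set.toFinite_iff_finite_aux this
where
  Set.toFinite_iff_finite_aux {N : ℕ} {f : {G : PowerSeries F | polyLe N G} → (Fin (N + 1) → F)}
    (h : Function.Injective f) : {G : PowerSeries F | polyLe N G}.Finite := by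
    have : Finite {G : PowerSeries F | polyLe N G} := Finite.of_injective f h
    exact Set.toFinite _

/-- Relations between the Frobenius powers of `P`. -/
def Rel (P : PowerSeries F) (r : ℕ) : Prop :=
  ∃ a : ℕ → PowerSeries F, (∃ N, ∀ j, polyLe N (a j)) ∧ (∃ j ≤ r, a j ≠ 0) ∧
    ∑ j ∈ Finset.range (r + 1), a j * P ^ (Fintype.card F ^ j) = 0

lemma exists_rel (P : PowerSeries F) (hP : IsAlgebraic F[X] P) : ∃ r, Rel P r := by
  classical
  obtain ⟨y, hy0, hint⟩ := hP.exists_integral_multiple
  set Q : PowerSeries F := y • P with hQ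
  set A := Algebra.adjoin F[X] ({Q} : Set (PowerSeries F)) with hA
  have : Module.Finite F[X] A := by
    exact Module.Finite.of_fg hint.fg_adjoin_singleton
  have : IsNoetherian F[X] A := isNoetherian_of_isNoetherianRing_of_finite F[X] A
  have hQA : Q ∈ A := Algebra.subset_adjoin rfl
  have hnli : ¬ LinearIndependent F[X]
      (fun j : ℕ => (⟨Q, hQA⟩ : A) ^ (Fintype.card F ^ j)) := by
    intro h
    have := h.finite_of_isNoetherian
    exact not_finite ℕ
  rw [not_linearIndependent_iff] at hnli
  obtain ⟨s, g, hsum, j0, hj0, hgj0⟩ := hnli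
  have hsum' : ∑ j ∈ s, (g j) • Q ^ (Fintype.card F ^ j) = 0 := by
    have := congrArg (Subalgebra.val A) hsum
    simpa using this
  have hsum2 : ∑ j ∈ s, ((g j * y ^ (Fintype.card F ^ j) : F[X]) : PowerSeries F) *
      P ^ (Fintype.card F ^ j) = 0 := by
    rw [← hsum']
    apply Finset.sum_congr rfl
    intro j _
    rw [hQ, _root_.smul_pow, smul_smul, Algebra.smul_def]
    congr 1
  set r := s.sup id with hr
  have hsr : s ⊆ Finset.range (r + 1) := by
    intro j hj
    rw [Finset.mem_range]
    have : id j ≤ s.sup id := Finset.le_sup hj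
    simp only [id] at this
    omega
  refine ⟨r, fun j => if j ∈ s then ((g j * y ^ (Fintype.card F ^ j) : F[X]) : PowerSeries F) else 0,
    ?_, ?_, ?_⟩
  · refine ⟨s.sup (fun j => (g j * y ^ (Fintype.card F ^ j)).natDegree), fun j => ?_⟩
    beta_reduce
    split_ifs with h
    · refine polyLe_mono ?_ (polyLe_coe _)
      exact Finset.le_sup (f := fun j => (g j * y ^ (Fintype.card F ^ j)).natDegree) h
    · intro n _; simp
  · refine ⟨j0, ?_, ?_⟩
    · have := hsr hj0
      rw [Finset.mem_range] at this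
      omega
    · beta_reduce
      rw [if_pos hj0]
      intro h
      have : (g j0 * y ^ (Fintype.card F ^ j0) : F[X]) = 0 := by
        exact_mod_cast h
      rcases mul_eq_zero.mp this with h | h
      · exact hgj0 h
      · exact hy0 (eq_zero_of_pow_eq_zero h)
  · have hzero : ∀ j ∈ Finset.range (r + 1), j ∉ s →
        (if j ∈ s then ((g j * y ^ (Fintype.card F ^ j) : F[X]) : PowerSeries F) else 0) *
          P ^ (Fintype.card F ^ j) = 0 := by
      intro j _ hj
      rw [if_neg hj, zero_mul]
    have h1 := Finset.sum_subset hsr hzero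
    have h2 : ∑ j ∈ s, (if j ∈ s then ((g j * y ^ (Fintype.card F ^ j) : F[X]) : PowerSeries F)
        else 0) * P ^ (Fintype.card F ^ j) = 0 := by
      rw [← hsum2]
      apply Finset.sum_congr rfl
      intro j hj
      rw [if_pos hj]
    exact h1.symm.trans h2

/-- One may assume that the coefficient of `P` itself is nonzero. -/
lemma exists_rel_ne_zero (P : PowerSeries F) (hP : IsAlgebraic F[X] P) :
    ∃ (r : ℕ) (a : ℕ → PowerSeries F), (∃ N, ∀ j, polyLe N (a j)) ∧ a 0 ≠ 0 ∧
    ∑ j ∈ Finset.range (r + 1), a j * P ^ (Fintype.card F ^ j) = 0 := by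
  classical
  have hex := exists_rel P hP
  set r := Nat.find hex with hr
  obtain ⟨a, ⟨N, hN⟩, ⟨j0, hj0, haj0⟩, hsum⟩ := Nat.find_spec hex
  refine ⟨r, a, ⟨N, hN⟩, ?_, hsum⟩
  intro ha0
  have hj0pos : 0 < j0 := by
    rcases Nat.eq_zero_or_pos j0 with h | h
    · rw [h] at haj0; exact absurd ha0 haj0
    · exact h
  have hrpos : 0 < r := by
    have : j0 ≤ r := hj0
    omega
  -- a coefficient of a j0 which is nonzero
  obtain ⟨m, hm⟩ : ∃ m, PowerSeries.coeff m (a j0) ≠ 0 := by
    by_contra h
    push Not at h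
    exact haj0 (PowerSeries.ext (by simpa using h))
  have hq0 : 0 < Fintype.card F := Fintype.card_pos
  set i := m % Fintype.card F with hi
  have hilt : i < Fintype.card F := Nat.mod_lt _ hq0
  have hrel : Rel P (r - 1) := by
    refine ⟨fun j => lam i (a (j + 1)), ⟨N, fun j => ?_⟩, ⟨j0 - 1, by omega, ?_⟩, ?_⟩
    · exact polyLe_lam (M := 0) (by simpa using hN (j + 1)) (Nat.zero_le _) i
    · have e : j0 - 1 + 1 = j0 := by omega
      simp only [e]
      intro h
      apply hm
      have := congrArg (PowerSeries.coeff (m / Fintype.card F)) h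
      rw [coeff_lam, map_zero, hi, Nat.div_add_mod] at this
      exact this
    · have h1 := congrArg (lam i) hsum
      rw [lam_zero, lam_sum, Finset.sum_range_succ'] at h1
      rw [ha0, zero_mul, lam_zero, add_zero] at h1
      have e : r - 1 + 1 = r := by omega
      rw [e, ← h1]
      apply Finset.sum_congr rfl
      intro j _
      rw [pow_succ (Fintype.card F) j, pow_mul, lam_mul_pow i hilt]
  have := Nat.find_min hex (show r - 1 < r by omega)
  exact this hrel

/-- Algebraic power series over a finite field have finite kernels: there is a finite set of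
power series containing `P` and stable under the Cartier operators. -/
theorem exists_finite_stable (P : PowerSeries F) (hP : IsAlgebraic F[X] P) (hP0 : P ≠ 0) :
    ∃ S : Set (PowerSeries F), S.Finite ∧ P ∈ S ∧
      ∀ G ∈ S, ∀ i < Fintype.card F, lam i G ∈ S := by
  classical
  obtain ⟨r, a, ⟨N0, hN0⟩, ha0, hsum⟩ := exists_rel_ne_zero P hP
  set q := Fintype.card F with hq
  have hq2 : 2 ≤ q := Fintype.one_lt_card
  -- the polynomials b_j = - a_j a_0^(q^j - 2)
  set b : ℕ → PowerSeries F := fun j => - a j * a 0 ^ (q ^ j - 2) with hb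
  -- a common degree bound
  have hpow : ∀ k : ℕ, polyLe (N0 * k) (a 0 ^ k) := by
    intro k
    induction k with
    | zero =>
      intro n hn
      rw [pow_zero, PowerSeries.coeff_one, if_neg (by omega)]
    | succ k ih =>
      rw [pow_succ, Nat.mul_succ]
      exact polyLe_mul ih (hN0 0)
  obtain ⟨N1, hN1⟩ : ∃ N1, ∀ j ≤ r, polyLe N1 (b j) := by
    refine ⟨N0 + N0 * q ^ r, fun j hj => ?_⟩
    have hneg : polyLe N0 (- a j) := by
      intro n hn; rw [map_neg, hN0 j n hn, neg_zero]
    have h2 : polyLe (N0 * q ^ r) (a 0 ^ (q ^ j - 2)) := by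
      refine polyLe_mono (Nat.mul_le_mul_left _ ?_) (hpow _)
      have : q ^ j ≤ q ^ r := Nat.pow_le_pow_right (by omega) hj
      omega
    exact polyLe_mul hneg h2
  set N := N0 + N1 with hN
  let S : Set (PowerSeries F) := {H | ∃ C : ℕ → PowerSeries F, (∀ j, polyLe N (C j)) ∧
    a 0 ^ (q ^ r) * H = ∑ j ∈ Finset.range (r + 1), C j * a 0 ^ (q ^ r - q ^ j) * P ^ (q ^ j)}
  have ha0pow : ∀ k : ℕ, a 0 ^ k ≠ 0 := fun k => pow_ne_zero k ha0
  have hrpos : 0 < r := by
    rcases Nat.eq_zero_or_pos r with h | h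
    · exfalso
      rw [h] at hsum
      simp only [zero_add, Finset.sum_range_one, pow_zero, pow_one] at hsum
      rcases mul_eq_zero.mp hsum with h | h
      · exact ha0 h
      · exact hP0 h
    · exact h
  refine ⟨S, ?_, ?_, ?_⟩
  · -- finiteness
    have hfin : Finite {G : PowerSeries F | polyLe N G} := (polyLe_finite N).to_subtype
    have hsub : S ⊆ ⋃ (C : Fin (r + 1) → {G : PowerSeries F | polyLe N G}),
        {H | a 0 ^ (q ^ r) * H = ∑ j : Fin (r + 1), (C j).1 * a 0 ^ (q ^ r - q ^ (j : ℕ)) *
          P ^ (q ^ (j : ℕ))} := by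
      intro H hH
      obtain ⟨C, hC, hH⟩ := hH
      rw [Set.mem_iUnion]
      refine ⟨fun j => ⟨C j, hC j⟩, ?_⟩
      rw [Set.mem_ofPred_eq, hH, Finset.sum_range]
    refine Set.Finite.subset ?_ hsub
    apply Set.finite_iUnion
    intro C
    apply Set.Subsingleton.finite
    intro H1 h1 H2 h2
    rw [Set.mem_ofPred_eq] at h1 h2
    exact mul_left_cancel₀ (ha0pow _) (h1.trans h2.symm)
  · -- P ∈ S
    refine ⟨fun j => if j = 0 then a 0 else 0, fun j => ?_, ?_⟩
    · by_cases hj : j = 0
      · simp only [hj, if_true]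
        exact polyLe_mono (by omega) (hN0 0)
      · simp only [hj, if_false]
        intro n _; simp
    · rw [Finset.sum_eq_single 0]
      · simp only [if_true, pow_zero, pow_one]
        rw [← pow_succ']
        congr 2
        have : 1 ≤ q ^ r := Nat.one_le_pow _ _ (by omega)
        omega
      · intro j _ hj; simp [hj]
      · intro h; exact absurd (Finset.mem_range.mpr (by omega)) h
  · -- stability
    intro H hH i hi
    obtain ⟨C, hC, hH⟩ := hH
    -- rewrite the j = 0 term
    have hkey : a 0 ^ (q ^ r) * H = ∑ j ∈ Finset.range r,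
        (C 0 * b (j + 1) + C (j + 1)) * a 0 ^ (q ^ r - q ^ (j + 1)) * P ^ (q ^ (j + 1)) := by
      rw [hH, Finset.sum_range_succ']
      have h0 : a 0 * P = ∑ j ∈ Finset.range r, - a (j + 1) * P ^ (q ^ (j + 1)) := by
        rw [Finset.sum_range_succ'] at hsum
        simp only [pow_zero, pow_one] at hsum
        simp only [neg_mul, Finset.sum_neg_distrib]
        linear_combination hsum
      have hqr2 : 2 ≤ q ^ r := le_trans hq2 (Nat.le_self_pow (by omega) q)
      have h1 : C 0 * a 0 ^ (q ^ r - q ^ 0) * P ^ (q ^ 0) =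
          ∑ j ∈ Finset.range r, C 0 * b (j + 1) * a 0 ^ (q ^ r - q ^ (j + 1)) *
            P ^ (q ^ (j + 1)) := by
        have e1 : C 0 * a 0 ^ (q ^ r - q ^ 0) * P ^ (q ^ 0) =
            C 0 * a 0 ^ (q ^ r - 2) * (a 0 * P) := by
          rw [pow_zero, pow_one]
          have : q ^ r - 1 = (q ^ r - 2) + 1 := by omega
          rw [this, pow_succ]
          ring
        rw [e1, h0, Finset.mul_sum]
        apply Finset.sum_congr rfl
        intro j hj
        rw [Finset.mem_range] at hj
        have hqj : 2 ≤ q ^ (j + 1) := le_trans hq2 (Nat.le_self_pow (by omega) q)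
        have hjr : q ^ (j + 1) ≤ q ^ r := Nat.pow_le_pow_right (by omega) (by omega)
        have e2 : a 0 ^ (q ^ r - 2) = a 0 ^ (q ^ (j + 1) - 2) * a 0 ^ (q ^ r - q ^ (j + 1)) := by
          rw [← pow_add]; congr 1; omega
        rw [e2, hb]
        ring
      rw [h1, ← Finset.sum_add_distrib]
      apply Finset.sum_congr rfl
      intro j _
      ring
    -- apply lam i
    have hlam := congrArg (lam i) hkey
    have hq0 : 0 < q := by omega
    have hr1 : q ^ r = q ^ (r - 1) * q := by
      rw [← pow_succ]; congr 1; omega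
    have e3 : a 0 ^ (q ^ r) * H = H * (a 0 ^ (q ^ (r - 1))) ^ q := by
      rw [← pow_mul, ← hr1]; ring
    rw [e3, lam_mul_pow i hi, lam_sum] at hlam
    refine ⟨fun j => if j < r then lam i (C 0 * b (j + 1) + C (j + 1)) else 0, fun j => ?_, ?_⟩
    · by_cases hj : j < r
      · simp only [hj, if_true]
        refine polyLe_lam (M := N1) ?_ (by omega) i
        exact polyLe_add (polyLe_mul (hC 0) (hN1 (j + 1) (by omega)))
          (polyLe_mono (by omega) (hC (j + 1)))
      · simp only [hj, if_false]
        intro n _; simp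
    · have e4 : a 0 ^ (q ^ r) * lam i H =
          a 0 ^ (q ^ r - q ^ (r - 1)) * (lam i H * a 0 ^ (q ^ (r - 1))) := by
        have : q ^ r = (q ^ r - q ^ (r - 1)) + q ^ (r - 1) := by
          have : q ^ (r - 1) ≤ q ^ r := Nat.pow_le_pow_right (by omega) (by omega)
          omega
        conv_lhs => rw [this, pow_add]
        ring
      rw [e4, hlam, Finset.sum_range_succ]
      simp only [lt_irrefl, if_false, zero_mul, add_zero]
      rw [Finset.mul_sum]
      apply Finset.sum_congr rfl
      intro j hj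
      rw [Finset.mem_range] at hj
      rw [if_pos hj]
      have hj1 : q ^ (j + 1) ≤ q ^ r := Nat.pow_le_pow_right (by omega) (by omega)
      have hj2 : q ^ j ≤ q ^ (r - 1) := Nat.pow_le_pow_right (by omega) (by omega)
      have hj3 : q ^ (r - 1) ≤ q ^ r := Nat.pow_le_pow_right (by omega) (by omega)
      have e5 : (C 0 * b (j + 1) + C (j + 1)) * a 0 ^ (q ^ r - q ^ (j + 1)) * P ^ (q ^ (j + 1)) =
          (C 0 * b (j + 1) + C (j + 1)) * (a 0 ^ (q ^ (r - 1) - q ^ j) * P ^ (q ^ j)) ^ q := by
        rw [mul_pow, ← pow_mul, ← pow_mul, ← pow_succ, Nat.sub_mul, ← hr1, ← pow_succ]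
        ring
      rw [e5, lam_mul_pow i hi]
      have e6 : a 0 ^ (q ^ r - q ^ j) =
          a 0 ^ (q ^ r - q ^ (r - 1)) * a 0 ^ (q ^ (r - 1) - q ^ j) := by
        rw [← pow_add]; congr 1; omega
      rw [e6]
      ring

end

end Pool.Agent.Lib.MP_5f5f24_nt
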