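import Mathlib
import Pool.Agent.Lib.MP_5f5f24_nt.AutoA

set_option autoImplicit false

namespace Pool.Agent.Lib.MP_5f5f24_nt

open Polynomial

/-- The truncation with `L` terms. -/
noncomputable def Pt {F : Type*} [Field F] (w : ℕ → F) (L : ℕ) : F[X] :=
  ∑ i ∈ Finset.range L, C (w i) * X ^ i

lemma Pt_succ {F : Type*} [Field F] (w : ℕ → F) (L : ℕ) :
    Pt w (L + 1) = Pt w L + C (w L) * X ^ L := by
  unfold Pt
  rw [Finset.sum_range_succ]

lemma trunc_eq_Pt {F : Type*} [Field F] (u : ℕ → F) (n : ℕ) : trunc u n = Pt u (n + 1) := rfl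

lemma Pt_mul {F : Type*} [Field F] (w : ℕ → F) (k L : ℕ) :
    Pt w (k * L) = ∑ r ∈ Finset.range k, X ^ r * expand F k (Pt (fun n => w (k * n + r)) L) := by
  induction L with
  | zero => simp [Pt]
  | succ L ih =>
    have h1 : Pt w (k * (L + 1)) = Pt w (k * L) +
        ∑ r ∈ Finset.range k, C (w (k * L + r)) * X ^ (k * L + r) := by
      unfold Pt
      rw [Nat.mul_succ, Finset.sum_range_add]
    rw [h1, ih, ← Finset.sum_add_distrib]
    refine Finset.sum_congr rfl fun r _ => ?_
    rw [Pt_succ, map_add, map_mul, expand_C, map_pow, expand_X, mul_add, ← pow_mul, pow_add]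
    ring

/-- A common linear relation between the truncations at powers of `k`. -/
lemma exists_relation {F : Type*} [Field F] (k : ℕ) (S : Set (ℕ → F)) (hS : S.Finite)
    (hstab : ∀ w ∈ S, ∀ r < k, (fun n => w (k * n + r)) ∈ S) :
    ∃ (D : ℕ) (g : ℕ → F[X]), (∃ i ≤ D, g i ≠ 0) ∧ ∀ j : ℕ, ∀ w ∈ S,
      ∑ i ∈ Finset.range (D + 1), expand F (k ^ j) (g i) * Pt w (k ^ (i + j)) = 0 := by
  classical
  have : Fintype S := hS.fintype
  set D := Fintype.card S with hD
  have hnot : ¬ LinearIndependent F[X]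
      (fun i : Fin (D + 1) => (fun w : S => Pt w.1 (k ^ (i : ℕ)) : S → F[X])) := by
    intro h
    have h1 := h.fintype_card_le_finrank
    rw [Fintype.card_fin, Module.finrank_fintype_fun_eq_card] at h1
    omega
  rw [Fintype.not_linearIndependent_iff] at hnot
  obtain ⟨g, hg, i0, hi0⟩ := hnot
  refine ⟨D, fun i => if h : i < D + 1 then g ⟨i, h⟩ else 0, ⟨i0.1, by omega, by
    show (if h : i0.1 < D + 1 then g ⟨i0.1, h⟩ else 0) ≠ 0
    rw [dif_pos i0.2]; exact hi0⟩, ?_⟩
  intro j
  induction j with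
  | zero =>
    intro w hw
    have h1 := congrFun hg ⟨w, hw⟩
    simp only [Finset.sum_apply, Pi.smul_apply, smul_eq_mul, Pi.zero_apply] at h1
    rw [Finset.sum_range]
    refine (Finset.sum_congr rfl fun i _ => ?_).trans h1
    show expand F (k ^ 0) (if h : i.1 < D + 1 then g ⟨i.1, h⟩ else 0) * _ = _
    rw [dif_pos i.2, pow_zero, expand_one, add_zero]
  | succ j ih =>
    intro w hw
    calc ∑ i ∈ Finset.range (D + 1), expand F (k ^ (j + 1))
          (if h : i < D + 1 then g ⟨i, h⟩ else 0) * Pt w (k ^ (i + (j + 1)))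
        = ∑ i ∈ Finset.range (D + 1), ∑ r ∈ Finset.range k, X ^ r *
            expand F k (expand F (k ^ j) (if h : i < D + 1 then g ⟨i, h⟩ else 0) *
              Pt (fun n => w (k * n + r)) (k ^ (i + j))) := by
          refine Finset.sum_congr rfl fun i _ => ?_
          have e1 : k ^ (i + (j + 1)) = k * k ^ (i + j) := by ring
          rw [e1, Pt_mul, Finset.mul_sum]
          refine Finset.sum_congr rfl fun r _ => ?_
          rw [map_mul, expand_expand, ← pow_succ']
          ring
      _ = ∑ r ∈ Finset.range k, X ^ r * expand F k (∑ i ∈ Finset.range (D + 1),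
            expand F (k ^ j) (if h : i < D + 1 then g ⟨i, h⟩ else 0) *
              Pt (fun n => w (k * n + r)) (k ^ (i + j))) := by
          rw [Finset.sum_comm]
          refine Finset.sum_congr rfl fun r _ => ?_
          rw [map_sum, Finset.mul_sum]
      _ = 0 := by
          refine Finset.sum_eq_zero fun r hr => ?_
          rw [ih _ (hstab w hw r (Finset.mem_range.1 hr)), map_zero, mul_zero]

/-! ### Arithmetic -/

lemma totient_pow_succ' (k a : ℕ) (hk : 1 ≤ k) :
    Nat.totient (k ^ (a + 1)) = k ^ a * Nat.totient k := by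
  induction a with
  | zero => simp
  | succ a ih =>
    have h1 := Nat.totient_gcd_mul_totient_mul k (k ^ (a + 1))
    have h2 : Nat.gcd k (k ^ (a + 1)) = k := Nat.gcd_eq_left (dvd_pow_self k (by omega))
    rw [h2] at h1
    have h3 : 0 < Nat.totient k := Nat.totient_pos.2 (by omega)
    have h4 : k ^ (a + 1 + 1) = k * k ^ (a + 1) := by ring
    rw [h4]
    have h5 : Nat.totient k * Nat.totient (k * k ^ (a + 1)) =
        Nat.totient k * (k ^ (a + 1) * Nat.totient k) := by
      rw [h1, ih]
      ring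
    exact Nat.eq_of_mul_eq_mul_left h3 h5

/-- The part of `q ^ n - 1` composed of primes of `k` is bounded if `n` is coprime to `k`. -/
lemma dvd_bound {q k n m a : ℕ} (hq : 2 ≤ q) (hk : 1 ≤ k) (hn : Nat.Coprime n k) (hn0 : n ≠ 0)
    (hma : m ∣ k ^ a) (hm : m ∣ q ^ n - 1) : m ∣ q ^ Nat.totient k - 1 := by
  have h0 : 1 ≤ q ^ n := Nat.one_le_pow _ _ (by omega)
  have hcop : Nat.Coprime q m := by
    have h1 : Nat.Coprime (q ^ n) (q ^ n - 1) := by
      have := (Nat.coprime_self_sub_right h0).2 (Nat.coprime_one_right (q ^ n))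
      exact this
    exact Nat.Coprime.coprime_dvd_right hm
      (Nat.Coprime.coprime_dvd_left (dvd_pow_self q hn0) h1)
  have h2 : q ^ Nat.totient m ≡ 1 [MOD m] := Nat.ModEq.pow_totient hcop
  have h3 : Nat.totient m ∣ k ^ a * Nat.totient k := by
    rw [← totient_pow_succ' k a hk]
    exact Nat.totient_dvd_of_dvd (hma.trans (pow_dvd_pow k (Nat.le_succ a)))
  have h4 : m ∣ q ^ Nat.totient m - 1 :=
    (Nat.modEq_iff_dvd' (Nat.one_le_pow _ _ (by omega))).1 h2.symm
  have h5 : m ∣ q ^ (k ^ a * Nat.totient k) - 1 := h4.trans (by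
    obtain ⟨t, ht⟩ := h3
    rw [ht, pow_mul]
    have := Nat.sub_dvd_pow_sub_pow (q ^ Nat.totient m) 1 t
    rwa [one_pow] at this)
  have h6 : m ∣ Nat.gcd (q ^ (k ^ a * Nat.totient k) - 1) (q ^ n - 1) := Nat.dvd_gcd h5 hm
  rw [Nat.pow_sub_one_gcd_pow_sub_one] at h6
  have h7 : Nat.gcd (k ^ a * Nat.totient k) n ∣ Nat.totient k := by
    have h8 : Nat.Coprime (Nat.gcd (k ^ a * Nat.totient k) n) (k ^ a) :=
      Nat.Coprime.coprime_dvd_left (Nat.gcd_dvd_right _ _) (Nat.Coprime.pow_right a hn)
    exact h8.dvd_of_dvd_mul_left (Nat.gcd_dvd_left _ _)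
  refine h6.trans ?_
  obtain ⟨t, ht⟩ := h7
  conv_rhs => rw [ht, pow_mul]
  have := Nat.sub_dvd_pow_sub_pow (q ^ Nat.gcd (k ^ a * Nat.totient k) n) 1 t
  rwa [one_pow] at this

/-- A number below `B` which divides a power of `k` divides `k ^ B`. -/
lemma dvd_pow_of_le {k m a B : ℕ} (hk : k ≠ 0) (hma : m ∣ k ^ a) (hmB : m ≤ B) : m ∣ k ^ B := by
  have hm0 : m ≠ 0 := by
    rintro rfl
    exact pow_ne_zero a hk (zero_dvd_iff.1 hma)
  rw [← Nat.factorization_le_iff_dvd hm0 (pow_ne_zero _ hk)]
  intro p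
  rw [Nat.factorization_pow, Finsupp.smul_apply, smul_eq_mul]
  by_cases hp : p.Prime
  · by_cases h0 : m.factorization p = 0
    · rw [h0]
      exact Nat.zero_le _
    · have h1 : p ∣ m := Nat.dvd_of_factorization_pos h0
      have h2 : p ∣ k := hp.dvd_of_dvd_pow (h1.trans hma)
      have h3 : 1 ≤ k.factorization p := (hp.dvd_iff_one_le_factorization hk).1 h2
      have h4 : p ^ m.factorization p ∣ m := Nat.ordProj_dvd m p
      have h5 : p ^ m.factorization p ≤ m := Nat.le_of_dvd (Nat.pos_of_ne_zero hm0) h4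
      have h6 : m.factorization p < p ^ m.factorization p := Nat.lt_pow_self hp.one_lt
      calc m.factorization p ≤ B := by omega
        _ ≤ B * k.factorization p := Nat.le_mul_of_pos_right _ h3
  · rw [Nat.factorization_eq_zero_of_not_prime _ hp]
    exact Nat.zero_le _

/-- In a finite extension the nonzero roots of a fixed nonzero polynomial have bounded order. -/
lemma exists_order_bound {F : Type*} [Field F] [Fintype F] (A : F[X]) (hA : A ≠ 0) :
    ∃ Ω : ℕ, 1 ≤ Ω ∧ ∀ (E : Type _) [Field E] [Finite E] [Algebra F E] (y : E), y ≠ 0 →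
      aeval y A = 0 → y ^ Ω = 1 := by
  classical
  set q := Fintype.card F with hq
  have hq2 : 2 ≤ q := Fintype.one_lt_card
  refine ⟨∏ d ∈ Finset.Icc 1 A.natDegree, (q ^ d - 1), ?_, ?_⟩
  · refine Nat.one_le_iff_ne_zero.2 (Finset.prod_ne_zero_iff.2 fun d hd => ?_)
    have h1 : 1 ≤ d := (Finset.mem_Icc.1 hd).1
    have h2 : q ^ 1 ≤ q ^ d := Nat.pow_le_pow_right (by omega) h1
    rw [pow_one] at h2
    omega
  · intro E _ _ _ y hy hyA
    have hfd : Module.Finite F E := Module.Finite.of_finite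
    have hint : IsIntegral F y := IsIntegral.of_finite F y
    set d := (minpoly F y).natDegree with hd
    have hd1 : 1 ≤ d := minpoly.natDegree_pos hint
    have hdA : d ≤ A.natDegree := natDegree_le_of_dvd (minpoly.dvd F y hyA) hA
    have hdvd : (q ^ d - 1) ∣ ∏ d ∈ Finset.Icc 1 A.natDegree, (q ^ d - 1) :=
      Finset.dvd_prod_of_mem _ (Finset.mem_Icc.2 ⟨hd1, hdA⟩)
    obtain ⟨t, ht⟩ := hdvd
    rw [ht, pow_mul]
    have h1 : y ^ (q ^ d - 1) = 1 := by
      have h2 : Module.finrank F (IntermediateField.adjoin F {y}) = d :=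
        IntermediateField.adjoin.finrank hint
      let y' : IntermediateField.adjoin F {y} := IntermediateField.AdjoinSimple.gen F y
      have h3 : y'.1 = y := IntermediateField.AdjoinSimple.coe_gen F y
      have : Fintype (IntermediateField.adjoin F {y}) := Fintype.ofFinite _
      have h4 : Fintype.card (IntermediateField.adjoin F {y}) = q ^ d := by
        rw [Module.card_eq_pow_finrank (K := F), h2]
      have h5 : y' ≠ 0 := by
        intro h
        apply hy
        rw [← h3, h]
        rfl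
      have h6 := FiniteField.pow_card_sub_one_eq_one y' h5
      rw [h4] at h6
      have h7 := congrArg (fun z : IntermediateField.adjoin F {y} => (z : E)) h6
      simpa [h3] using h7
    rw [h1, one_pow]

end Pool.Agent.Lib.MP_5f5f24_nt
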