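import Mathlib
import Pool.Agent.Lib.MP_5f5f24_nt.AutoK

set_option autoImplicit false

namespace Pool.Agent.Lib.MP_5f5f24_nt

open Polynomial

/-- The key step: if `f_{k ^ J - 1}` is irreducible and `J` is large, then it divides
`f_{k ^ (J + π) - 1}` for some `π ≥ 1`. -/
lemma dvd_later {F : Type*} [Field F] [Fintype F] (u : ℕ → F) (hu : ∀ n, u n ≠ 0) (k : ℕ)
    (hk : 2 ≤ k) (S : Set (ℕ → F)) (hS : S.Finite) (huS : u ∈ S)
    (hstab : ∀ w ∈ S, ∀ r < k, (fun n => w (k * n + r)) ∈ S) :
    ∃ J0 : ℕ, ∀ J, J0 ≤ J → Irreducible (Pt u (k ^ J)) →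
      ∃ π, 1 ≤ π ∧ Pt u (k ^ J) ∣ Pt u (k ^ (J + π)) := by
  classical
  set q := Fintype.card F with hq
  have hq2 : 2 ≤ q := Fintype.one_lt_card
  obtain ⟨D, g, hex, hrel⟩ := exists_relation k S hS hstab
  -- the first nonzero coefficient
  have hex' : ∃ i, g i ≠ 0 := by
    obtain ⟨i, _, hi⟩ := hex
    exact ⟨i, hi⟩
  set i0 := Nat.find hex' with hi0
  have hgi0 : g i0 ≠ 0 := Nat.find_spec hex'
  have hmin : ∀ i < i0, g i = 0 := fun i hi => by
    by_contra h
    exact Nat.find_min hex' hi h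
  have hi0D : i0 ≤ D := by
    obtain ⟨i, hi, hgi⟩ := hex
    exact (Nat.find_min' hex' hgi).trans hi
  obtain ⟨Ω, hΩ, hord⟩ := exists_order_bound (g i0) hgi0
  set B := q ^ Nat.totient k - 1 with hB
  have hB1 : 1 ≤ B := by
    have h1 : 1 ≤ Nat.totient k := Nat.totient_pos.2 (by omega)
    have h2 : q ^ 1 ≤ q ^ Nat.totient k := Nat.pow_le_pow_right (by omega) h1
    rw [pow_one] at h2
    omega
  refine ⟨i0 + B + B * Ω + 2, fun J hJ hirr => ?_⟩
  -- the degree
  have hdeg : (Pt u (k ^ J)).natDegree = k ^ J - 1 := by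
    have h1 : 1 ≤ k ^ J := Nat.one_le_pow _ _ (by omega)
    have h2 := natDegree_trunc u hu (k ^ J - 1)
    rw [trunc_eq_Pt, Nat.sub_add_cancel h1] at h2
    exact h2
  set n := k ^ J - 1 with hn
  have hkJ : J < k ^ J := Nat.lt_pow_self (by omega)
  have hnbig : B * Ω < n := by omega
  have hn0 : n ≠ 0 := by omega
  have hcopn : Nat.Coprime n k := by
    have h1 : Nat.Coprime (k ^ J - 1) (k ^ J) := by
      have h0 : 1 ≤ k ^ J := by omega
      exact ((Nat.coprime_self_sub_right h0).2 (Nat.coprime_one_right (k ^ J))).symm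
    exact Nat.Coprime.coprime_dvd_right (dvd_pow_self k (by omega)) h1
  set f := Pt u (k ^ J) with hf
  have : Fact (Irreducible f) := ⟨hirr⟩
  have hf0 : f ≠ 0 := hirr.ne_zero
  have hfin : Module.Finite F (AdjoinRoot f) := (AdjoinRoot.powerBasis hf0).finite
  have hfinite : Finite (AdjoinRoot f) := Module.finite_of_finite F
  have : Fintype (AdjoinRoot f) := Fintype.ofFinite _
  set c : AdjoinRoot f := AdjoinRoot.root f with hc
  have hcard : Fintype.card (AdjoinRoot f) = q ^ n := by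
    rw [Module.card_eq_pow_finrank (K := F), (AdjoinRoot.powerBasis hf0).finrank,
      AdjoinRoot.powerBasis_dim, hdeg]
  have hroot : aeval c f = 0 := by
    rw [hc, AdjoinRoot.aeval_eq, AdjoinRoot.mk_self]
  have hdvd_iff : ∀ p : F[X], aeval c p = 0 → f ∣ p := by
    intro p hp
    rwa [hc, AdjoinRoot.aeval_eq, AdjoinRoot.mk_eq_zero] at hp
  have hc0 : c ≠ 0 := by
    intro h
    have h1 : f ∣ X := hdvd_iff X (by rw [aeval_X, h])
    have h2 := natDegree_le_of_dvd h1 X_ne_zero
    rw [hdeg, natDegree_X] at h2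
    omega
  have hcN : c ^ (q ^ n - 1) = 1 := by
    have h1 := FiniteField.pow_card_sub_one_eq_one c hc0
    rwa [hcard] at h1
  -- small exponents do not kill `c`
  have hbig : c ^ (B * Ω) ≠ 1 := by
    intro h
    have h1 : f ∣ X ^ (B * Ω) - 1 := hdvd_iff _ (by
      rw [map_sub, map_pow, aeval_X, map_one, h, sub_self])
    have h2 : (X ^ (B * Ω) - 1 : F[X]) ≠ 0 := by
      have h3 : 0 < B * Ω := Nat.mul_pos (by omega) (by omega)
      exact (monic_X_pow_sub_C (1 : F) h3.ne').ne_zero |> fun h => by simpa using h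
    have h3 := natDegree_le_of_dvd h1 h2
    have h4 : (X ^ (B * Ω) - 1 : F[X]).natDegree = B * Ω := by
      have := natDegree_X_pow_sub_C (n := B * Ω) (r := (1 : F))
      simpa using this
    rw [h4, hdeg] at h3
    omega
  -- gcds
  have hgcd : ∀ a, Nat.gcd (k ^ a) (q ^ n - 1) ∣ B := fun a =>
    dvd_bound hq2 (by omega) hcopn hn0 (Nat.gcd_dvd_left _ _) (Nat.gcd_dvd_right _ _)
  have hpowgcd : ∀ e : ℕ, c ^ e = 1 → c ^ Nat.gcd e (q ^ n - 1) = 1 := by
    intro e he
    rw [← orderOf_dvd_iff_pow_eq_one] at he ⊢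
    exact Nat.dvd_gcd he (orderOf_dvd_iff_pow_eq_one.2 hcN)
  -- `c ^ (k ^ j)` is not a root of `g i0`
  have hne : ∀ j, aeval (c ^ k ^ j) (g i0) ≠ 0 := by
    intro j h
    have h1 := hord (AdjoinRoot f) (c ^ k ^ j) (pow_ne_zero _ hc0) h
    rw [← pow_mul] at h1
    have h2 := hpowgcd _ h1
    apply hbig
    have h3 : Nat.gcd (k ^ j * Ω) (q ^ n - 1) ∣ B * Ω := by
      have h4 : Nat.gcd (k ^ j * Ω) (q ^ n - 1) ∣ Nat.gcd (k ^ j) (q ^ n - 1) * Ω := by
        rw [Nat.gcd_comm (k ^ j * Ω), Nat.gcd_comm (k ^ j)]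
        refine (Nat.gcd_mul_right_dvd_mul_gcd _ _ _).trans ?_
        exact Nat.mul_dvd_mul_left _ (Nat.gcd_dvd_right _ _)
      exact h4.trans (Nat.mul_dvd_mul_right (hgcd j) Ω)
    obtain ⟨t, ht⟩ := h3
    rw [ht, pow_mul, h2, one_pow]
  -- the values
  set s : ℕ → AdjoinRoot f := fun i => aeval c (Pt u (k ^ i)) with hs
  have hrec : ∀ j, ∑ i ∈ Finset.range (D + 1), aeval (c ^ k ^ j) (g i) * s (i + j) = 0 := by
    intro j
    have h1 := congrArg (aeval c) (hrel j u huS)
    rw [map_zero, map_sum] at h1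
    rw [← h1]
    refine Finset.sum_congr rfl fun i _ => ?_
    rw [map_mul, expand_aeval]
  -- pigeonhole
  obtain ⟨a, b, hab, hJa, hEq⟩ : ∃ a b : ℕ, a < b ∧ J ≤ a ∧
      ((c ^ k ^ a, fun i : Fin (D + 1) => s (i + a)) : AdjoinRoot f × (Fin (D + 1) → AdjoinRoot f))
        = (c ^ k ^ b, fun i : Fin (D + 1) => s (i + b)) := by
    obtain ⟨x, y, hxy, h⟩ := Finite.exists_ne_map_eq_of_infinite
      (fun j : ℕ => ((c ^ k ^ (J + j), fun i : Fin (D + 1) => s (i + (J + j))) :
        AdjoinRoot f × (Fin (D + 1) → AdjoinRoot f)))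
    rcases lt_or_gt_of_ne hxy with h1 | h1
    · exact ⟨J + x, J + y, by omega, by omega, h⟩
    · exact ⟨J + y, J + x, by omega, by omega, h.symm⟩
  set π := b - a with hπ
  have hbπ : b = a + π := by omega
  rw [Prod.mk.injEq] at hEq
  obtain ⟨hcab, hsab⟩ := hEq
  have hsab' : ∀ i ≤ D, s (i + a + π) = s (i + a) := by
    intro i hi
    have h1 := congrFun hsab ⟨i, by omega⟩
    have h2 : i + a + π = i + b := by omega
    rw [h2]
    exact h1.symm
  -- the exponents are periodic from `B` on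
  have hper : ∀ j, B ≤ j → c ^ k ^ (j + π) = c ^ k ^ j := by
    have h1 : c ^ (k ^ a * (k ^ π - 1)) = 1 := by
      have h2 : k ^ a * (k ^ π - 1) + k ^ a = k ^ b := by
        have h3 : 1 ≤ k ^ π := Nat.one_le_pow _ _ (by omega)
        rw [hbπ, pow_add]
        have h4 : k ^ π = (k ^ π - 1) + 1 := by omega
        conv_rhs => rw [h4]
        ring
      have h3 : c ^ (k ^ a * (k ^ π - 1)) * c ^ k ^ a = 1 * c ^ k ^ a := by
        rw [← pow_add, h2, one_mul, hcab]
      exact mul_right_cancel₀ (pow_ne_zero _ hc0) h3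
    have h2 := hpowgcd _ h1
    have h3 : Nat.gcd (k ^ a * (k ^ π - 1)) (q ^ n - 1) ∣ k ^ B * (k ^ π - 1) := by
      have h4 : Nat.gcd (k ^ a * (k ^ π - 1)) (q ^ n - 1) ∣
          Nat.gcd (k ^ a) (q ^ n - 1) * (k ^ π - 1) := by
        rw [Nat.gcd_comm (k ^ a * (k ^ π - 1)), Nat.gcd_comm (k ^ a)]
        refine (Nat.gcd_mul_right_dvd_mul_gcd _ _ _).trans ?_
        exact Nat.mul_dvd_mul_left _ (Nat.gcd_dvd_right _ _)
      refine h4.trans (Nat.mul_dvd_mul_right ?_ _)
      exact dvd_pow_of_le (by omega) (Nat.gcd_dvd_left _ _) (Nat.le_of_dvd (by omega) (hgcd a))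
    have h4 : c ^ (k ^ B * (k ^ π - 1)) = 1 := by
      obtain ⟨t, ht⟩ := h3
      rw [ht, pow_mul, h2, one_pow]
    intro j hj
    have h5 : k ^ (j + π) = k ^ B * (k ^ π - 1) * k ^ (j - B) + k ^ j := by
      have h6 : 1 ≤ k ^ π := Nat.one_le_pow _ _ (by omega)
      obtain ⟨e, he⟩ : ∃ e, k ^ π = e + 1 := ⟨k ^ π - 1, by omega⟩
      have h7 : k ^ j = k ^ B * k ^ (j - B) := by
        rw [← pow_add]
        congr 1
        omega
      rw [pow_add, he, Nat.add_sub_cancel, h7]
      ring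
    rw [h5, pow_add, pow_mul c (k ^ B * (k ^ π - 1)), h4, one_pow, one_mul]
  -- backward induction
  have hback : ∀ m : ℕ, ∀ j, j + m = a → B ≤ j → ∀ i, i0 ≤ i → i ≤ D →
      s (i + j + π) = s (i + j) := by
    intro m
    induction m with
    | zero =>
      intro j hj _ i _ hi
      have : j = a := by omega
      subst this
      exact hsab' i hi
    | succ m ih =>
      intro j hj hBj i hi hiD
      have h1 := ih (j + 1) (by omega) (by omega)
      rcases Nat.lt_or_ge i0 i with h2 | h2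
      · have h3 := h1 (i - 1) (by omega) (by omega)
        have e1 : i - 1 + (j + 1) = i + j := by omega
        rwa [e1] at h3
      · have hii : i = i0 := by omega
        subst hii
        have h3 := hrec j
        have h4 := hrec (j + π)
        rw [hper j hBj] at h4
        have h5 : ∑ x ∈ Finset.range (D + 1), aeval (c ^ k ^ j) (g x) *
            (s (x + j + π) - s (x + j)) = 0 := by
          have e1 : ∀ x, x + (j + π) = x + j + π := fun x => by ring
          simp only [mul_sub, Finset.sum_sub_distrib]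
          rw [h3, sub_zero]
          simpa only [e1] using h4
        rw [Finset.sum_eq_single i0] at h5
        · rcases mul_eq_zero.1 h5 with h6 | h6
          · exact absurd h6 (hne j)
          · exact sub_eq_zero.1 h6
        · intro x hx hxi
          rcases lt_or_gt_of_ne hxi with h6 | h6
          · rw [hmin x h6, map_zero, zero_mul]
          · have h7 := h1 (x - 1) (by omega) (by
              have := Finset.mem_range.1 hx
              omega)
            have e1 : x - 1 + (j + 1) = x + j := by omega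
            rw [e1] at h7
            rw [h7, sub_self, mul_zero]
        · intro h6
          exact absurd (Finset.mem_range.2 (by omega)) h6
  refine ⟨π, by omega, hdvd_iff _ ?_⟩
  have h1 := hback (a - (J - i0)) (J - i0) (by omega) (by omega) i0 le_rfl hi0D
  have e1 : i0 + (J - i0) = J := by omega
  rw [e1] at h1
  have h2 : s J = 0 := hroot
  rw [h2] at h1
  exact h1

/-- If `u` belongs to a finite set of sequences which is stable under `w ↦ (n ↦ w (k n + r))`,
`r < k`, for some `k ≥ 2`, then infinitely many truncations are reducible. -/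
theorem infinite_reducible_of_k_kernel {F : Type*} [Field F] [Fintype F] (u : ℕ → F)
    (hu : ∀ n, u n ≠ 0) (k : ℕ) (hk : 2 ≤ k) (S : Set (ℕ → F)) (hS : S.Finite) (huS : u ∈ S)
    (hstab : ∀ w ∈ S, ∀ r < k, (fun n => w (k * n + r)) ∈ S) :
    {m : ℕ | ¬ Irreducible (trunc u m)}.Infinite := by
  classical
  obtain ⟨J0, hJ0⟩ := dvd_later u hu k hk S hS huS hstab
  rw [Set.infinite_iff_exists_gt]
  intro A
  by_contra hcon
  push Not at hcon
  have hirr : ∀ m, A < m → Irreducible (trunc u m) := by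
    intro m hm
    by_contra h
    exact absurd (hcon m h) (by omega)
  set J := J0 + A + 2 with hJ
  have hkJ : J < k ^ J := Nat.lt_pow_self (by omega)
  have h1 : Irreducible (Pt u (k ^ J)) := by
    have h2 := hirr (k ^ J - 1) (by omega)
    rwa [trunc_eq_Pt, Nat.sub_add_cancel (by omega)] at h2
  obtain ⟨π, hπ, hdvd⟩ := hJ0 J (by omega) h1
  have hlt : k ^ J < k ^ (J + π) := Nat.pow_lt_pow_right (by omega) (by omega)
  have h2 : Irreducible (Pt u (k ^ (J + π))) := by
    have h3 := hirr (k ^ (J + π) - 1) (by omega)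
    rwa [trunc_eq_Pt, Nat.sub_add_cancel (by omega)] at h3
  have hd1 : (Pt u (k ^ J)).natDegree = k ^ J - 1 := by
    have h3 := natDegree_trunc u hu (k ^ J - 1)
    rwa [trunc_eq_Pt, Nat.sub_add_cancel (by omega)] at h3
  have hd2 : (Pt u (k ^ (J + π))).natDegree = k ^ (J + π) - 1 := by
    have h3 := natDegree_trunc u hu (k ^ (J + π) - 1)
    rwa [trunc_eq_Pt, Nat.sub_add_cancel (by omega)] at h3
  obtain ⟨h, hh⟩ := hdvd
  rcases h2.isUnit_or_isUnit hh with h' | h'
  · exact h1.not_isUnit h'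
  · have h0 : h.natDegree = 0 := natDegree_eq_zero_of_isUnit h'
    have h4 := congrArg natDegree hh
    rw [natDegree_mul h1.ne_zero h'.ne_zero, h0, hd1, hd2] at h4
    omega

end Pool.Agent.Lib.MP_5f5f24_nt
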